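import Pool.Agent.H90.MR.StmBox

/-!
# BOX and BOXT of the project MR: boxes for consecutive members of an arbitrary real sequence
-/

set_option autoImplicit false

namespace Pool.Agent.H85.MR

open Finset MeasureTheory Filter
open Pool.Agent.H90.MR

open Classical in
/-- the number of the `l < 2 ^ m` with `x (l + j) < t` -/
noncomputable def cl (x : ℕ → ℝ) (m j : ℕ) (t : ℝ) : ℕ :=
  ((range (2 ^ m)).filter (fun l => x (l + j) < t)).card

open Classical in
/-- the number of the `l < 2 ^ m` with `t < x (l + j)` -/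
noncomputable def cg (x : ℕ → ℝ) (m j : ℕ) (t : ℝ) : ℕ :=
  ((range (2 ^ m)).filter (fun l => t < x (l + j))).card

open Classical in
/-- the number of the `l < 2 ^ m` with `t ≤ x (l + j)` -/
noncomputable def ce (x : ℕ → ℝ) (m j : ℕ) (t : ℝ) : ℕ :=
  ((range (2 ^ m)).filter (fun l => t ≤ x (l + j))).card

theorem cl_le (x : ℕ → ℝ) (m j : ℕ) (t : ℝ) : cl x m j t ≤ 2 ^ m := by
  classical
  unfold cl
  exact (card_filter_le _ _).trans (card_range _).le

theorem ce_le (x : ℕ → ℝ) (m j : ℕ) (t : ℝ) : ce x m j t ≤ 2 ^ m := by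
  classical
  unfold ce
  exact (card_filter_le _ _).trans (card_range _).le

theorem cl_lt (x : ℕ → ℝ) (m j k : ℕ) (hk : k < 2 ^ m) : cl x m j (x (k + j)) < 2 ^ m := by
  classical
  unfold cl
  calc _ < (range (2 ^ m)).card := by
        apply card_lt_card
        rw [ssubset_iff_of_subset (filter_subset _ _)]
        exact ⟨k, mem_range.2 hk, fun h => lt_irrefl _ (mem_filter.1 h).2⟩
    _ = 2 ^ m := card_range _

theorem cg_lt (x : ℕ → ℝ) (m j k : ℕ) (hk : k < 2 ^ m) : cg x m j (x (k + j)) < 2 ^ m := by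
  classical
  unfold cg
  calc _ < (range (2 ^ m)).card := by
        apply card_lt_card
        rw [ssubset_iff_of_subset (filter_subset _ _)]
        exact ⟨k, mem_range.2 hk, fun h => lt_irrefl _ (mem_filter.1 h).2⟩
    _ = 2 ^ m := card_range _

theorem cl_iff (x : ℕ → ℝ) (m j k : ℕ) (hk : k < 2 ^ m) (b : ℝ) :
    cl x m j (x (k + j)) < cl x m j b ↔ x (k + j) < b := by
  classical
  unfold cl
  constructor
  · intro h
    by_contra h1
    push Not at h1
    apply absurd h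
    push Not
    apply card_le_card
    intro l hl
    rw [mem_filter] at hl ⊢
    exact ⟨hl.1, hl.2.trans_le h1⟩
  · intro h
    apply card_lt_card
    rw [ssubset_iff_of_subset]
    · exact ⟨k, mem_filter.2 ⟨mem_range.2 hk, h⟩, fun h => lt_irrefl _ (mem_filter.1 h).2⟩
    · intro l hl
      rw [mem_filter] at hl ⊢
      exact ⟨hl.1, hl.2.trans h⟩

theorem cg_iff (x : ℕ → ℝ) (m j k : ℕ) (hk : k < 2 ^ m) (a : ℝ) :
    cg x m j (x (k + j)) < ce x m j a ↔ a ≤ x (k + j) := by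
  classical
  unfold cg ce
  constructor
  · intro h
    by_contra h1
    push Not at h1
    apply absurd h
    push Not
    apply card_le_card
    intro l hl
    rw [mem_filter] at hl ⊢
    exact ⟨hl.1, h1.trans_le hl.2⟩
  · intro h
    apply card_lt_card
    rw [ssubset_iff_of_subset]
    · exact ⟨k, mem_filter.2 ⟨mem_range.2 hk, h⟩, fun h => lt_irrefl _ (mem_filter.1 h).2⟩
    · intro l hl
      rw [mem_filter] at hl ⊢
      exact ⟨hl.1, h.trans hl.2.le⟩

/-- the rank functions -/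
noncomputable def rsx (x : ℕ → ℝ) (s m : ℕ) : List (ℕ → ℕ) :=
  List.ofFn (fun j : Fin s => fun k => cl x m j (x (k + j))) ++
    List.ofFn (fun j : Fin s => fun k => cg x m j (x (k + j)))

/-- the rank functions and the thresholds -/
noncomputable def rbx (x : ℕ → ℝ) (s m : ℕ) (a b : Fin s → ℝ) : List ((ℕ → ℕ) × ℕ) :=
  List.ofFn (fun j : Fin s => ((fun k => cl x m j (x (k + j))), cl x m j (b j))) ++
    List.ofFn (fun j : Fin s => ((fun k => cg x m j (x (k + j))), ce x m j (a j)))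

theorem rsx_length (x : ℕ → ℝ) (s m : ℕ) : (rsx x s m).length = 2 * s := by
  unfold rsx
  rw [List.length_append, List.length_ofFn, List.length_ofFn, two_mul]

theorem rsx_lt (x : ℕ → ℝ) (s m : ℕ) : ∀ r ∈ rsx x s m, ∀ k < 2 ^ m, r k < 2 ^ m := by
  intro r hr k hk
  unfold rsx at hr
  rcases List.mem_append.1 hr with h | h
  · obtain ⟨j, rfl⟩ := (List.mem_ofFn' _ _).1 h
    exact cl_lt x m j k hk
  · obtain ⟨j, rfl⟩ := (List.mem_ofFn' _ _).1 h
    exact cg_lt x m j k hk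

theorem rbx_map (x : ℕ → ℝ) (s m : ℕ) (a b : Fin s → ℝ) :
    (rbx x s m a b).map Prod.fst = rsx x s m := by
  unfold rbx rsx
  rw [List.map_append, List.map_ofFn, List.map_ofFn]
  rfl

theorem rbx_le (x : ℕ → ℝ) (s m : ℕ) (a b : Fin s → ℝ) : ∀ y ∈ rbx x s m a b, y.2 ≤ 2 ^ m := by
  intro y hy
  unfold rbx at hy
  rcases List.mem_append.1 hy with h | h
  · obtain ⟨j, rfl⟩ := (List.mem_ofFn' _ _).1 h
    exact cl_le x m j _
  · obtain ⟨j, rfl⟩ := (List.mem_ofFn' _ _).1 h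
    exact ce_le x m j _

theorem rbx_iff (x : ℕ → ℝ) (s m : ℕ) (a b : Fin s → ℝ) (k : ℕ) (hk : k < 2 ^ m) :
    (∀ y ∈ rbx x s m a b, y.1 k < y.2) ↔ ∀ j : Fin s, a j ≤ x (k + j) ∧ x (k + j) < b j := by
  unfold rbx
  constructor
  · intro h j
    constructor
    · exact (cg_iff x m j k hk (a j)).1 (h _ (List.mem_append.2 (Or.inr
        ((List.mem_ofFn' _ _).2 ⟨j, rfl⟩))))
    · exact (cl_iff x m j k hk (b j)).1 (h _ (List.mem_append.2 (Or.inl
        ((List.mem_ofFn' _ _).2 ⟨j, rfl⟩))))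
  · intro h y hy
    rcases List.mem_append.1 hy with h1 | h1
    · obtain ⟨j, rfl⟩ := (List.mem_ofFn' _ _).1 h1
      exact (cl_iff x m j k hk (b j)).2 (h j).2
    · obtain ⟨j, rfl⟩ := (List.mem_ofFn' _ _).1 h1
      exact (cg_iff x m j k hk (a j)).2 (h j).1

open Classical in
theorem box (hM : Pool.Agent.H90.MR.S_MET) : Pool.Agent.H90.MR.S_BOX := by
  intro n hn hn0 hc x s
  have h := arcs hM n hn hn0 hc (2 * s) (rsx x s) (fun _ => []) (rsx_length x s) (rsx_lt x s)
  filter_upwards [h] with α hα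
  obtain ⟨K₀, hK₀⟩ := hα
  refine ⟨K₀, fun K hK a b v hv0 hv1 => ?_⟩
  have h1 := hK₀ K hK (rbx x s (Nat.clog 2 K) a b) (rbx_map x s _ a b) (rbx_le x s _ a b) v hv0 hv1
    {[]}
  rw [Finset.sum_singleton] at h1
  have hlt : ∀ k, k < K → k < 2 ^ Nat.clog 2 K := fun k hk =>
    hk.trans_le (Nat.le_pow_clog (by norm_num) K)
  have e1 : ((range K).filter (fun k => (([] : List ℤ) = [] ∧
      ∀ y ∈ rbx x s (Nat.clog 2 K) a b, y.1 k < y.2) ∧ Int.fract ((n k : ℝ) * α) < v)) =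
      ((range K).filter (fun k => (∀ j : Fin s, a j ≤ x (k + j) ∧ x (k + j) < b j) ∧
        Int.fract ((n k : ℝ) * α) < v)) := by
    ext k
    simp only [mem_filter, mem_range]
    constructor
    · rintro ⟨h2, ⟨_, h3⟩, h4⟩
      exact ⟨h2, (rbx_iff x s _ a b k (hlt k h2)).1 h3, h4⟩
    · rintro ⟨h2, h3, h4⟩
      exact ⟨h2, ⟨trivial, (rbx_iff x s _ a b k (hlt k h2)).2 h3⟩, h4⟩
  have e2 : ((range K).filter (fun k => (([] : List ℤ) = [] ∧
      ∀ y ∈ rbx x s (Nat.clog 2 K) a b, y.1 k < y.2))) =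
      ((range K).filter (fun k => (∀ j : Fin s, a j ≤ x (k + j) ∧ x (k + j) < b j))) := by
    ext k
    simp only [mem_filter, mem_range]
    constructor
    · rintro ⟨h2, _, h3⟩
      exact ⟨h2, (rbx_iff x s _ a b k (hlt k h2)).1 h3⟩
    · rintro ⟨h2, h3⟩
      exact ⟨h2, trivial, (rbx_iff x s _ a b k (hlt k h2)).2 h3⟩
  rw [e1, e2, show 2 * (2 * s) + 11 = 4 * s + 11 by ring] at h1
  exact h1

open Classical in
theorem boxt (hM : Pool.Agent.H90.MR.S_THIN) : Pool.Agent.H90.MR.S_BOXT := by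
  intro n hn hn0 hc δ hδ hδa x s
  have h := targets hM n hn hn0 hc δ hδ hδa (2 * s) (rsx x s) (fun _ => []) (rsx_length x s)
    (rsx_lt x s)
  filter_upwards [h] with α hα
  obtain ⟨K₀, hK₀⟩ := hα
  refine ⟨K₀, fun K hK a b => ?_⟩
  have h1 := hK₀ K hK (rbx x s (Nat.clog 2 K) a b) (rbx_map x s _ a b) (rbx_le x s _ a b) {[]}
  rw [Finset.sum_singleton] at h1
  have hlt : ∀ k, k < K → k < 2 ^ Nat.clog 2 K := fun k hk =>
    hk.trans_le (Nat.le_pow_clog (by norm_num) K)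
  have e1 : ((range K).filter (fun k => (([] : List ℤ) = [] ∧
      ∀ y ∈ rbx x s (Nat.clog 2 K) a b, y.1 k < y.2) ∧ Int.fract ((n k : ℝ) * α) < δ k)) =
      ((range K).filter (fun k => (∀ j : Fin s, a j ≤ x (k + j) ∧ x (k + j) < b j) ∧
        Int.fract ((n k : ℝ) * α) < δ k)) := by
    ext k
    simp only [mem_filter, mem_range]
    constructor
    · rintro ⟨h2, ⟨_, h3⟩, h4⟩
      exact ⟨h2, (rbx_iff x s _ a b k (hlt k h2)).1 h3, h4⟩
    · rintro ⟨h2, h3, h4⟩
      exact ⟨h2, ⟨trivial, (rbx_iff x s _ a b k (hlt k h2)).2 h3⟩, h4⟩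
  have e2 : ((range K).filter (fun k => (([] : List ℤ) = [] ∧
      ∀ y ∈ rbx x s (Nat.clog 2 K) a b, y.1 k < y.2))) =
      ((range K).filter (fun k => (∀ j : Fin s, a j ≤ x (k + j) ∧ x (k + j) < b j))) := by
    ext k
    simp only [mem_filter, mem_range]
    constructor
    · rintro ⟨h2, _, h3⟩
      exact ⟨h2, (rbx_iff x s _ a b k (hlt k h2)).1 h3⟩
    · rintro ⟨h2, h3⟩
      exact ⟨h2, trivial, (rbx_iff x s _ a b k (hlt k h2)).2 h3⟩
  rw [e1, e2, show 2 * (2 * s) + 7 = 4 * s + 7 by ring] at h1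
  exact h1

end Pool.Agent.H85.MR
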