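import Pool.Agent.H90.MR.Stm

/-!
# COV and VAR of the project MR: covariance of two arcs at coprime multipliers
-/

set_option autoImplicit false

namespace Pool.Agent.H85.MR

open Finset MeasureTheory Filter
open Pool.Agent.H90.MR

/-- the indicator function of the arc `[c, d)` -/
noncomputable def ind (c d : ℝ) (y : ℝ) : ℝ :=
  if c ≤ Int.fract y ∧ Int.fract y < d then 1 else 0

theorem g_eq (c d : ℝ) (n : ℕ) (x : ℝ) : g c d n x = ind c d (n * x) - (d - c) := rfl

theorem ind_nonneg (c d y : ℝ) : 0 ≤ ind c d y := by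
  unfold ind
  split_ifs <;> norm_num

theorem ind_le_one (c d y : ℝ) : ind c d y ≤ 1 := by
  unfold ind
  split_ifs <;> norm_num

theorem ind_sq (c d y : ℝ) : ind c d y ^ 2 = ind c d y := by
  unfold ind
  split_ifs <;> norm_num

theorem ind_nat_add (c d : ℝ) (i : ℕ) (y : ℝ) : ind c d (i + y) = ind c d y := by
  unfold ind
  rw [Int.fract_natCast_add]

theorem measurable_ind (c d : ℝ) : Measurable (ind c d) := by
  unfold ind
  apply Measurable.ite
  · apply MeasurableSet.inter
    · exact measurableSet_le measurable_const measurable_fract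
    · exact measurableSet_lt measurable_fract measurable_const
  · exact measurable_const
  · exact measurable_const

/-- bounded measurable functions are integrable -/
theorem intg {f : ℝ → ℝ} (hf : Measurable f) (C : ℝ) (hC : ∀ x, |f x| ≤ C) (a b : ℝ) :
    IntervalIntegrable f volume a b := by
  rw [intervalIntegrable_iff]
  refine Measure.integrableOn_of_bounded (M := C) ?_ hf.aestronglyMeasurable ?_
  · rw [Set.uIoc]
    exact measure_Ioc_lt_top.ne
  · exact Filter.Eventually.of_forall hC

theorem intg_ind (c d : ℝ) (n : ℕ) (a b : ℝ) :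
    IntervalIntegrable (fun x => ind c d (n * x)) volume a b := by
  have hm : Measurable fun x : ℝ => ind c d (n * x) :=
    (measurable_ind c d).comp (measurable_const_mul _)
  exact intg hm 1 (fun x => by rw [abs_of_nonneg (ind_nonneg _ _ _)]; exact ind_le_one _ _ _) _ _

/-- the splitting of `[0, 1]` into `p` intervals -/
theorem split (p : ℕ) (hp : 1 ≤ p) {F : ℝ → ℝ} (hF : Measurable F) (C : ℝ) (hC : ∀ x, |F x| ≤ C) :
    ∫ x in (0 : ℝ)..1, F x =
      (p : ℝ)⁻¹ * ∑ i ∈ Finset.range p, ∫ t in (0 : ℝ)..1, F (t / p + i / p) := by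
  have hp0 : (p : ℝ) ≠ 0 := by positivity
  have h1 := intervalIntegral.sum_integral_adjacent_intervals (f := F) (μ := volume)
    (a := fun k : ℕ => (k : ℝ) / p) (n := p) (fun k _ => intg hF C hC _ _)
  rw [Nat.cast_zero, zero_div, div_self hp0] at h1
  rw [← h1, Finset.mul_sum]
  apply Finset.sum_congr rfl
  intro i _
  rw [intervalIntegral.integral_comp_div_add F hp0, smul_eq_mul, ← mul_assoc,
    inv_mul_cancel₀ hp0, one_mul]
  congr 1
  · ring
  · push_cast
    ring

theorem int_ind0 (c d : ℝ) (h0 : 0 ≤ c) (h1 : c ≤ d) (h2 : d ≤ 1) :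
    ∫ t in (0 : ℝ)..1, ind c d t = d - c := by
  have h3 : ∫ t in (0 : ℝ)..1, ind c d t = ∫ t in (0 : ℝ)..1, (Set.Ico c d).indicator 1 t := by
    rw [intervalIntegral.integral_of_le zero_le_one, intervalIntegral.integral_of_le zero_le_one,
      ← integral_Ico_eq_integral_Ioc, ← integral_Ico_eq_integral_Ioc]
    apply setIntegral_congr_fun measurableSet_Ico
    intro t ht
    have h4 : Int.fract t = t := Int.fract_eq_self.2 ht
    show ind c d t = (Set.Ico c d).indicator 1 t
    unfold ind
    rw [h4, Set.indicator_apply]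
    rfl
  rw [h3, intervalIntegral.integral_of_le zero_le_one, ← integral_Ico_eq_integral_Ioc,
    setIntegral_indicator measurableSet_Ico]
  have h5 : Set.Ico (0 : ℝ) 1 ∩ Set.Ico c d = Set.Ico c d := by
    apply Set.inter_eq_right.2
    exact Set.Ico_subset_Ico h0 h2
  rw [h5]
  simp [h1]

theorem int_ind (p : ℕ) (hp : 1 ≤ p) (c d : ℝ) (h0 : 0 ≤ c) (h1 : c ≤ d) (h2 : d ≤ 1) :
    ∫ t in (0 : ℝ)..1, ind c d (p * t) = d - c := by
  have hp0 : (p : ℝ) ≠ 0 := by positivity
  rw [split p hp (F := fun x => ind c d (p * x)) ((measurable_ind c d).comp (measurable_const_mul _)) 1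
    (fun x => by rw [abs_of_nonneg (ind_nonneg _ _ _)]; exact ind_le_one _ _ _)]
  have h3 : ∀ i ∈ Finset.range p, ∫ t in (0 : ℝ)..1, ind c d (p * (t / p + i / p)) = d - c := by
    intro i _
    rw [← int_ind0 c d h0 h1 h2]
    apply intervalIntegral.integral_congr
    intro t _
    show ind c d (p * (t / p + i / p)) = ind c d t
    rw [← ind_nat_add c d i t]
    congr 1
    field_simp
    ring
  rw [Finset.sum_congr rfl h3, Finset.sum_const, Finset.card_range, nsmul_eq_mul, ← mul_assoc,
    inv_mul_cancel₀ hp0, one_mul]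

theorem ind_floor (c d : ℝ) (h0 : 0 ≤ c) (h1 : c ≤ d) (h2 : d ≤ 1) (y : ℝ) :
    ind c d y = ((⌊y - c⌋ - ⌊y - d⌋ : ℤ) : ℝ) := by
  have key : ∀ e : ℝ, 0 ≤ e → e ≤ 1 → ⌊y - e⌋ = ⌊y⌋ - (if Int.fract y < e then 1 else 0) := by
    intro e he0 he1
    have hf0 := Int.fract_nonneg y
    have hf1 := Int.fract_lt_one y
    have hy := Int.floor_add_fract y
    rw [Int.floor_eq_iff]
    split_ifs with h
    · push_cast
      constructor <;> linarith
    · push_cast
      push Not at h
      constructor <;> linarith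
  rw [key c h0 (by linarith), key d (by linarith) h2]
  unfold ind
  by_cases h3 : Int.fract y < c
  · rw [if_pos h3, if_pos (show Int.fract y < d by linarith),
      if_neg (show ¬ (c ≤ Int.fract y ∧ Int.fract y < d) from fun h => by linarith [h.1])]
    push_cast
    ring
  · by_cases h4 : Int.fract y < d
    · rw [if_neg h3, if_pos h4,
        if_pos (show c ≤ Int.fract y ∧ Int.fract y < d from ⟨by linarith, h4⟩)]
      push_cast
      ring
    · rw [if_neg h3, if_neg h4,
        if_neg (show ¬ (c ≤ Int.fract y ∧ Int.fract y < d) from fun h => h4 h.2)]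
      push_cast
      ring

/-- the residues of `q i + m`, `i < p` -/
theorem sum_mod (p q : ℕ) (hp : 1 ≤ p) (hpq : p.Coprime q) (m : ℤ) :
    ∑ i ∈ Finset.range p, ((q : ℤ) * i + m) % p = ∑ i ∈ Finset.range p, (i : ℤ) := by
  have hp0 : (0 : ℤ) < p := by exact_mod_cast hp
  have hinj : Set.InjOn (fun i : ℕ => (((q : ℤ) * i + m) % p).toNat) (Finset.range p : Set ℕ) := by
    intro i hi j hj hij
    simp only [Finset.coe_range, Set.mem_Iio] at hi hj
    have h1 : ((q : ℤ) * i + m) % p = ((q : ℤ) * j + m) % p := by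
      have h2 := Int.emod_nonneg ((q : ℤ) * i + m) hp0.ne'
      have h3 := Int.emod_nonneg ((q : ℤ) * j + m) hp0.ne'
      have h4 : (((q : ℤ) * i + m) % p).toNat = (((q : ℤ) * j + m) % p).toNat := hij
      omega
    have h5 : (p : ℤ) ∣ (q : ℤ) * (i - j) := by
      have h6 := Int.emod_emod_of_dvd
      have h7 : ((q : ℤ) * i + m - ((q : ℤ) * j + m)) % p = 0 := by
        rw [Int.sub_emod, h1, sub_self, Int.zero_emod]
      have h8 := Int.dvd_of_emod_eq_zero h7
      have h9 : (q : ℤ) * i + m - ((q : ℤ) * j + m) = (q : ℤ) * (i - j) := by ring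
      rwa [h9] at h8
    have h10 : (p : ℤ) ∣ (i - j : ℤ) :=
      (Int.isCoprime_iff_gcd_eq_one.2 (by exact_mod_cast hpq)).dvd_of_dvd_mul_left h5
    have h11 : (i : ℤ) - j = 0 := by
      apply Int.eq_zero_of_abs_lt_dvd h10
      rw [abs_lt]
      constructor <;> omega
    omega
  have himg : (Finset.range p).image (fun i : ℕ => (((q : ℤ) * i + m) % p).toNat) =
      Finset.range p := by
    apply Finset.eq_of_subset_of_card_le
    · intro x hx
      obtain ⟨i, _, rfl⟩ := Finset.mem_image.1 hx
      rw [Finset.mem_range]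
      have h2 := Int.emod_nonneg ((q : ℤ) * i + m) hp0.ne'
      have h3 := Int.emod_lt_of_pos ((q : ℤ) * i + m) hp0
      omega
    · rw [Finset.card_image_of_injOn hinj]
  conv_rhs => rw [← himg]
  rw [Finset.sum_image hinj]
  apply Finset.sum_congr rfl
  intro i _
  rw [Int.toNat_of_nonneg (Int.emod_nonneg _ hp0.ne')]

theorem sum_div (p q : ℕ) (hp : 1 ≤ p) (hpq : p.Coprime q) (m m' : ℤ) :
    ∑ i ∈ Finset.range p, (((q : ℤ) * i + m) / p - ((q : ℤ) * i + m') / p) = m - m' := by
  have hp0 : (0 : ℤ) < p := by exact_mod_cast hp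
  have h1 : ∀ m : ℤ, (p : ℤ) * ∑ i ∈ Finset.range p, ((q : ℤ) * i + m) / p =
      ∑ i ∈ Finset.range p, (q : ℤ) * i + p * m - ∑ i ∈ Finset.range p, (i : ℤ) := by
    intro m
    rw [← sum_mod p q hp hpq m, Finset.mul_sum]
    have h2 : ∀ i ∈ Finset.range p, (p : ℤ) * (((q : ℤ) * i + m) / p) =
        (q : ℤ) * i + m - ((q : ℤ) * i + m) % p := by
      intro i _
      have := Int.mul_ediv_add_emod ((q : ℤ) * i + m) p
      linarith
    rw [Finset.sum_congr rfl h2, Finset.sum_sub_distrib, Finset.sum_add_distrib, Finset.sum_const,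
      Finset.card_range, nsmul_eq_mul]
  have h3 := h1 m
  have h4 := h1 m'
  rw [Finset.sum_sub_distrib]
  have h5 : (p : ℤ) * (∑ i ∈ Finset.range p, ((q : ℤ) * i + m) / p -
      ∑ i ∈ Finset.range p, ((q : ℤ) * i + m') / p) = p * (m - m') := by
    rw [mul_sub, h3, h4]
    ring
  exact mul_left_cancel₀ hp0.ne' h5

theorem inner_bound (p q : ℕ) (hp : 1 ≤ p) (hpq : p.Coprime q) (c d : ℝ) (h0 : 0 ≤ c) (h1 : c ≤ d)
    (h2 : d ≤ 1) (t : ℝ) :
    |∑ i ∈ Finset.range p, g c d q (t / p + i / p)| ≤ 1 := by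
  have hp0 : (0 : ℝ) < p := by exact_mod_cast hp
  have h3 : ∀ e : ℝ, ∀ i : ℕ, ⌊(q : ℝ) * (t / p + i / p) - e⌋ =
      ((q : ℤ) * i + ⌊(q : ℝ) * t - p * e⌋) / p := by
    intro e i
    have h4 : (q : ℝ) * (t / p + i / p) - e = ((((q : ℤ) * i : ℤ) : ℝ) + (q * t - p * e)) / (p : ℕ) := by
      push_cast
      field_simp
      ring
    rw [h4, Int.floor_div_natCast, Int.floor_intCast_add]
  have h5 : ∑ i ∈ Finset.range p, g c d q (t / p + i / p) =
      ((⌊(q : ℝ) * t - p * c⌋ - ⌊(q : ℝ) * t - p * d⌋ : ℤ) : ℝ) - p * (d - c) := by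
    have h6 : ∀ i ∈ Finset.range p, g c d q (t / p + i / p) =
        (((((q : ℤ) * i + ⌊(q : ℝ) * t - p * c⌋) / p -
          ((q : ℤ) * i + ⌊(q : ℝ) * t - p * d⌋) / p : ℤ)) : ℝ) - (d - c) := by
      intro i _
      rw [g_eq, ind_floor c d h0 h1 h2, h3, h3]
    rw [Finset.sum_congr rfl h6, Finset.sum_sub_distrib, Finset.sum_const, Finset.card_range,
      nsmul_eq_mul, ← Int.cast_sum, sum_div p q hp hpq]
  rw [h5, abs_le]
  have h7 := Int.floor_le ((q : ℝ) * t - p * c)
  have h8 := Int.lt_floor_add_one ((q : ℝ) * t - p * c)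
  have h9 := Int.floor_le ((q : ℝ) * t - p * d)
  have h10 := Int.lt_floor_add_one ((q : ℝ) * t - p * d)
  push_cast
  constructor <;> nlinarith

theorem measurable_g (c d : ℝ) (n : ℕ) : Measurable (g c d n) := by
  have : g c d n = fun x => ind c d (n * x) - (d - c) := rfl
  rw [this]
  exact ((measurable_ind c d).comp (measurable_const_mul _)).sub measurable_const

theorem abs_g_le (c d : ℝ) (h0 : 0 ≤ c) (h1 : c ≤ d) (h2 : d ≤ 1) (n : ℕ) (x : ℝ) :
    |g c d n x| ≤ 1 := by
  rw [g_eq, abs_le]
  have h3 := ind_nonneg c d (n * x)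
  have h4 := ind_le_one c d (n * x)
  constructor <;> linarith

theorem cov : S_COV := by
  intro p q hq hqp hpq c d c' d' h0 h1 h2 h0' h1' h2'
  have hp : 1 ≤ p := by omega
  have hp0 : (0 : ℝ) < p := by exact_mod_cast hp
  have hmi : ∀ n : ℕ, Measurable fun x : ℝ => ind c d (n * x) := fun n =>
    (measurable_ind c d).comp (measurable_const_mul _)
  have hzero : ∫ x in (0 : ℝ)..1, g c' d' q x = 0 := by
    have h3 : (fun x => g c' d' q x) = fun x => ind c' d' (q * x) - (d' - c') := rfl
    rw [h3, intervalIntegral.integral_sub, int_ind q hq c' d' h0' h1' h2']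
    · simp
    · exact intg_ind _ _ _ _ _
    · exact intervalIntegrable_const
  have hb : ∀ x, |ind c d (p * x) * g c' d' q x| ≤ 1 := fun x => by
    rw [abs_mul]
    have h3 := abs_g_le c' d' h0' h1' h2' q x
    have h4 : |ind c d (p * x)| ≤ 1 := by
      rw [abs_of_nonneg (ind_nonneg _ _ _)]; exact ind_le_one _ _ _
    calc _ ≤ (1 : ℝ) * 1 := mul_le_mul h4 h3 (abs_nonneg _) zero_le_one
      _ = 1 := one_mul 1
  have hm : Measurable fun x : ℝ => ind c d (p * x) * g c' d' q x := (hmi p).mul (measurable_g _ _ _)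
  have hI : ∫ x in (0 : ℝ)..1, g c d p x * g c' d' q x =
      ∫ x in (0 : ℝ)..1, ind c d (p * x) * g c' d' q x := by
    have h3 : (fun x => g c d p x * g c' d' q x) =
        fun x => ind c d (p * x) * g c' d' q x - (d - c) * g c' d' q x := by
      funext x
      rw [g_eq c d]
      ring
    rw [h3, intervalIntegral.integral_sub (intg hm 1 hb _ _)
      ((intg (measurable_g c' d' q) 1 (abs_g_le c' d' h0' h1' h2' q) _ _).const_mul _),
      intervalIntegral.integral_const_mul, hzero, mul_zero, sub_zero]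
  rw [hI, split p hp hm 1 hb]
  have h4 : ∀ i ∈ Finset.range p, ∫ t in (0 : ℝ)..1,
      ind c d (p * (t / p + i / p)) * g c' d' q (t / p + i / p) =
      ∫ t in (0 : ℝ)..1, ind c d t * g c' d' q (t / p + i / p) := by
    intro i _
    apply intervalIntegral.integral_congr
    intro t _
    show ind c d (p * (t / p + i / p)) * g c' d' q (t / p + i / p) =
      ind c d t * g c' d' q (t / p + i / p)
    congr 1
    rw [← ind_nat_add c d i t]
    congr 1
    field_simp
    ring
  rw [Finset.sum_congr rfl h4, ← intervalIntegral.integral_finsetSum]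
  · have h5 : (fun t => ∑ i ∈ Finset.range p, ind c d t * g c' d' q (t / p + i / p)) =
        fun t => ind c d t * ∑ i ∈ Finset.range p, g c' d' q (t / p + i / p) := by
      funext t
      rw [Finset.mul_sum]
    rw [h5, abs_mul, abs_of_pos (inv_pos.2 hp0), div_eq_inv_mul]
    apply mul_le_mul_of_nonneg_left _ (inv_pos.2 hp0).le
    have h6 : ∀ t, |ind c d t * ∑ i ∈ Finset.range p, g c' d' q (t / p + i / p)| ≤ ind c d t := by
      intro t
      rw [abs_mul, abs_of_nonneg (ind_nonneg _ _ _)]
      calc _ ≤ ind c d t * 1 :=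
            mul_le_mul_of_nonneg_left (inner_bound p q hp hpq c' d' h0' h1' h2' t)
              (ind_nonneg _ _ _)
        _ = _ := mul_one _
    calc |∫ t in (0 : ℝ)..1, ind c d t * ∑ i ∈ Finset.range p, g c' d' q (t / p + i / p)|
        ≤ ∫ t in (0 : ℝ)..1, |ind c d t * ∑ i ∈ Finset.range p, g c' d' q (t / p + i / p)| :=
          intervalIntegral.abs_integral_le_integral_abs zero_le_one
      _ ≤ ∫ t in (0 : ℝ)..1, ind c d t := by
          apply intervalIntegral.integral_mono_on zero_le_one
          · apply IntervalIntegrable.abs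
            apply intg (C := 1)
            · apply (measurable_ind c d).mul
              apply Finset.measurable_sum
              intro i _
              exact (measurable_g c' d' q).comp ((measurable_id.div_const _).add_const _)
            · intro t
              exact (h6 t).trans (ind_le_one _ _ _)
          · exact intg (measurable_ind c d) 1
              (fun x => by rw [abs_of_nonneg (ind_nonneg _ _ _)]; exact ind_le_one _ _ _) _ _
          · intro t _
            exact h6 t
      _ = d - c := int_ind0 c d h0 h1 h2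
  · intro i _
    apply intg (C := 1)
    · exact (measurable_ind c d).mul
        ((measurable_g c' d' q).comp ((measurable_id.div_const _).add_const _))
    · intro t
      rw [abs_mul, abs_of_nonneg (ind_nonneg _ _ _)]
      calc _ ≤ (1 : ℝ) * 1 := mul_le_mul (ind_le_one _ _ _) (abs_g_le c' d' h0' h1' h2' q _)
            (abs_nonneg _) zero_le_one
        _ = 1 := one_mul 1

theorem var : S_VAR := by
  intro p hp c d h0 h1 h2
  have h3 : (fun x => g c d p x ^ 2) =
      fun x => (1 - 2 * (d - c)) * ind c d (p * x) + (d - c) ^ 2 := by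
    funext x
    have h4 := ind_sq c d (p * x)
    rw [g_eq]
    linear_combination h4
  rw [h3, intervalIntegral.integral_add, intervalIntegral.integral_const_mul,
    int_ind p hp c d h0 h1 h2]
  · simp only [intervalIntegral.integral_const, sub_zero, one_smul]
    nlinarith
  · apply IntervalIntegrable.const_mul
    exact intg_ind _ _ _ _ _
  · exact intervalIntegrable_const

end Pool.Agent.H85.MR
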