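import Pool.Agent.H90.MR.StmInt
import Pool.Agent.H85.MR.Cov

/-!
# COVG of the project MR: covariance of two arcs at arbitrary multipliers
-/

set_option autoImplicit false

namespace Pool.Agent.H85.MR

open Finset MeasureTheory Filter
open Pool.Agent.H90.MR

theorem g_shift (c d : ℝ) (D p' i : ℕ) (hD : 1 ≤ D) (t : ℝ) :
    g c d (D * p') (t / D + i / D) = g c d p' t := by
  have hD0 : (D : ℝ) ≠ 0 := by positivity
  rw [g_eq, g_eq]
  congr 1
  have h : ((D * p' : ℕ) : ℝ) * (t / D + i / D) = ((p' * i : ℕ) : ℝ) + p' * t := by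
    push_cast
    field_simp
    ring
  rw [h, ind_nat_add]

theorem covg : S_COVG := by
  intro p q hq hqp c d c' d' h0 h1 h2 h0' h1' h2'
  obtain ⟨D, hDd⟩ : ∃ D, D = Nat.gcd p q := ⟨_, rfl⟩
  have hD : 1 ≤ D := by
    rw [hDd]
    exact Nat.gcd_pos_of_pos_right _ hq
  obtain ⟨p', hp'⟩ : D ∣ p := hDd ▸ Nat.gcd_dvd_left p q
  obtain ⟨q', hq'⟩ : D ∣ q := hDd ▸ Nat.gcd_dvd_right p q
  have hcop : p'.Coprime q' := by
    have h3 : D * Nat.gcd p' q' = D * 1 := by
      rw [← Nat.gcd_mul_left, ← hp', ← hq', mul_one, hDd]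
    exact Nat.eq_of_mul_eq_mul_left hD h3
  have hq1 : 1 ≤ q' := by
    rcases Nat.eq_zero_or_pos q' with h | h
    · subst h
      omega
    · exact h
  have hqp' : q' < p' := by
    rw [hp', hq'] at hqp
    exact lt_of_mul_lt_mul_left hqp (Nat.zero_le D)
  have hD0 : (D : ℝ) ≠ 0 := by positivity
  have hmeas : Measurable fun x : ℝ => g c d p x * g c' d' q x :=
    (measurable_g _ _ _).mul (measurable_g _ _ _)
  have hbd : ∀ x : ℝ, |g c d p x * g c' d' q x| ≤ 1 := by
    intro x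
    rw [abs_mul]
    calc _ ≤ (1 : ℝ) * 1 := mul_le_mul (abs_g_le c d h0 h1 h2 p x) (abs_g_le c' d' h0' h1' h2' q x)
          (abs_nonneg _) zero_le_one
      _ = 1 := mul_one 1
  have hmain : ∫ x in (0 : ℝ)..1, g c d p x * g c' d' q x =
      ∫ x in (0 : ℝ)..1, g c d p' x * g c' d' q' x := by
    rw [split D hD hmeas 1 hbd]
    have h3 : ∀ i ∈ Finset.range D, ∫ t in (0 : ℝ)..1, g c d p (t / D + i / D) *
        g c' d' q (t / D + i / D) = ∫ x in (0 : ℝ)..1, g c d p' x * g c' d' q' x := by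
      intro i _
      apply intervalIntegral.integral_congr
      intro t _
      simp only
      rw [hp', hq', g_shift c d D p' i hD, g_shift c' d' D q' i hD]
    rw [Finset.sum_congr rfl h3, Finset.sum_const, card_range, nsmul_eq_mul, ← mul_assoc,
      inv_mul_cancel₀ hD0, one_mul]
  rw [hmain, ← hDd]
  have hp0 : (0 : ℝ) < p' := by exact_mod_cast (by omega : 0 < p')
  calc _ ≤ (d - c) / p' := cov p' q' hq1 hqp' hcop c d c' d' h0 h1 h2 h0' h1' h2'
    _ = (d - c) * D / p := by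
      rw [hp']
      push_cast
      field_simp

end Pool.Agent.H85.MR
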