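import Pool.Agent.H90.MR.StmFam

/-!
# MOB of the project MR: Moebius sums in all short windows
-/

set_option autoImplicit false

namespace Pool.Agent.H85.MR

open Finset MeasureTheory Filter
open Pool.Agent.H90.MR

/-- counting over a window -/
theorem win (p q : ℕ → Prop) [DecidablePred p] [DecidablePred q] (h : ∀ k, p (k + 1) ↔ q k)
    (N : ℕ) : (((Ioc N (2 * N)).filter p).card : ℝ) =
      (((range (2 * N)).filter q).card : ℝ) - ((range N).filter q).card := by
  have h1 : ((Ioc N (2 * N)).filter p).card = ((Ico N (2 * N)).filter q).card := by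
    refine card_nbij' (fun n => n - 1) (fun k => k + 1) ?_ ?_ ?_ ?_
    · intro n hn
      rw [mem_coe, mem_filter, mem_Ioc] at hn
      rw [mem_coe, mem_filter, mem_Ico]
      simp only
      refine ⟨by omega, ?_⟩
      rw [← h]
      have e : n - 1 + 1 = n := by omega
      rw [e]
      exact hn.2
    · intro k hk
      rw [mem_coe, mem_filter, mem_Ico] at hk
      rw [mem_coe, mem_filter, mem_Ioc]
      simp only
      exact ⟨by omega, (h k).2 hk.2⟩
    · intro n hn
      rw [mem_coe, mem_filter, mem_Ioc] at hn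
      simp only
      omega
    · intro k _
      simp only
      omega
  have h2 : ((range (2 * N)).filter q).card =
      ((range N).filter q).card + ((Ico N (2 * N)).filter q).card := by
    rw [card_filter, card_filter, card_filter, sum_range_add_sum_Ico _ (by omega)]
  rw [h1, h2]
  push_cast
  ring

theorem mob_diff {n h g : ℕ} (hg : g ≤ h) (hn : h < n) :
    |mobSum n h - mobSum n g| ≤ 2 * ((h : ℝ) - g) := by
  have hsub : Icc (n - g) (n + g) ⊆ Icc (n - h) (n + h) := Icc_subset_Icc (by omega) (by omega)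
  have h1 := sum_sdiff (f := fun k => (ArithmeticFunction.moebius k : ℝ)) hsub
  have h2 : mobSum n h - mobSum n g =
      ∑ k ∈ Icc (n - h) (n + h) \ Icc (n - g) (n + g), (ArithmeticFunction.moebius k : ℝ) := by
    unfold mobSum
    rw [← h1]
    ring
  have h3 : (Icc (n - h) (n + h) \ Icc (n - g) (n + g)).card = 2 * (h - g) := by
    rw [card_sdiff_of_subset hsub, Nat.card_Icc, Nat.card_Icc]
    omega
  rw [h2]
  calc _ ≤ ∑ k ∈ Icc (n - h) (n + h) \ Icc (n - g) (n + g),
        |(ArithmeticFunction.moebius k : ℝ)| := abs_sum_le_sum_abs _ _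
    _ ≤ ∑ _k ∈ Icc (n - h) (n + h) \ Icc (n - g) (n + g), (1 : ℝ) := by
        apply sum_le_sum
        intro k _
        have := ArithmeticFunction.abs_moebius_le_one (n := k)
        exact_mod_cast this
    _ = 2 * ((h : ℝ) - g) := by
        rw [sum_const, h3, nsmul_eq_mul, mul_one]
        push_cast
        rw [Nat.cast_sub hg]

theorem mem_below {S : Set ℕ} {N h : ℕ} {t : ℝ} {n : ℕ} :
    n ∈ below S N h t ↔ (N < n ∧ n ≤ 2 * N) ∧ n ∈ S ∧ mobSum n h ≤ t := by
  classical
  unfold below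
  rw [mem_filter, mem_Ioc]

theorem below_card (S : Set ℕ) (N g : ℕ) (t : ℝ) (q : ℕ → Prop) [DecidablePred q]
    (h : ∀ k, (k + 1 ∈ S ∧ mobSum (k + 1) g ≤ t) ↔ q k) : ((below S N g t).card : ℝ) =
      (((range (2 * N)).filter q).card : ℝ) - ((range N).filter q).card := by
  classical
  unfold below
  exact win _ q h N

theorem below_mono {S : Set ℕ} {N h : ℕ} {t t' : ℝ} (ht : t ≤ t') :
    ((below S N h t).card : ℝ) ≤ (below S N h t').card := by
  have : below S N h t ⊆ below S N h t' := by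
    intro n hn
    rw [mem_below] at hn ⊢
    exact ⟨hn.1, hn.2.1, hn.2.2.trans ht⟩
  exact_mod_cast card_le_card this

theorem below_shift {S : Set ℕ} {N h g : ℕ} {t r : ℝ} (hh : h ≤ N) (hg : g ≤ h)
    (hr : 2 * ((h : ℝ) - g) ≤ r) :
    ((below S N h t).card : ℝ) ≤ (below S N g (t + r)).card ∧
      ((below S N g t).card : ℝ) ≤ (below S N h (t + r)).card := by
  constructor
  · have : below S N h t ⊆ below S N g (t + r) := by
      intro n hn
      rw [mem_below] at hn ⊢
      have h1 := abs_le.1 (mob_diff hg (show h < n by omega))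
      exact ⟨hn.1, hn.2.1, by linarith [hn.2.2, h1.1, h1.2]⟩
    exact_mod_cast card_le_card this
  · have : below S N g t ⊆ below S N h (t + r) := by
      intro n hn
      rw [mem_below] at hn ⊢
      have h1 := abs_le.1 (mob_diff hg (show h < n by omega))
      exact ⟨hn.1, hn.2.1, by linarith [hn.2.2, h1.1, h1.2]⟩
    exact_mod_cast card_le_card this

/-- logarithms against powers -/
theorem log_small {r : ℝ} (hr : 0 < r) : ∀ᶠ K : ℕ in atTop,
    320 * ((Nat.clog 2 K : ℝ) + 2) ^ 13 ≤ (K : ℝ) ^ r := by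
  have h1 : ∀ᶠ x : ℝ in atTop, Real.log x ^ (14 : ℝ) ≤ x ^ r := by
    have h := (isLittleO_log_rpow_rpow_atTop 14 hr).bound (show (0 : ℝ) < 1 by norm_num)
    filter_upwards [h, eventually_ge_atTop 1] with x hx hx1
    rw [one_mul, Real.norm_eq_abs, Real.norm_eq_abs] at hx
    rw [abs_of_nonneg (Real.rpow_nonneg (by linarith) r)] at hx
    exact (le_abs_self _).trans hx
  have h2 := tendsto_natCast_atTop_atTop.eventually h1
  filter_upwards [h2, pow_log 13 320] with K h3 h4
  refine h4.trans ?_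
  have e : (14 : ℝ) = ((14 : ℕ) : ℝ) := by norm_num
  rw [e, Real.rpow_natCast] at h3
  exact h3

theorem mob (hF : S_METF) : S_MOB := by
  classical
  have hae : ∀ q : ℕ, ∀ᵐ α : ℝ, 1 ≤ q → ∃ N₀ : ℕ, ∀ N : ℕ, N₀ ≤ N → ∀ h ≤ N, ∀ t v : ℝ, 0 ≤ v →
      v ≤ 1 →
      v * (below Set.univ N h (t - 16 * (N : ℝ) ^ (1 / (q : ℝ)))).card -
        (N : ℝ) ^ (1 - 1 / (4 * (q : ℝ))) ≤ (below (arcSet α v) N h t).card ∧
      ((below (arcSet α v) N h t).card : ℝ) ≤
        v * (below Set.univ N h (t + 16 * (N : ℝ) ^ (1 / (q : ℝ)))).card +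
          (N : ℝ) ^ (1 - 1 / (4 * (q : ℝ))) := by
    intro q
    filter_upwards [hF (fun m => 2 ^ m / 2 ^ (m / q) + 1)
      (fun m u k => mobSum (k + 1) (u * 2 ^ (m / q)))] with α hα hq
    have hq0 : (0 : ℝ) < q := by exact_mod_cast hq
    have ht2 : Tendsto (fun N : ℕ => 2 * N) atTop atTop :=
      tendsto_atTop_mono (fun N => by simp only [id]; omega) tendsto_id
    have hev := (ht2.eventually (tendsto_clog.eventually hα)).and
      ((ht2.eventually (log_small (show 0 < 1 / (2 * (q : ℝ)) by positivity))).and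
        (eventually_ge_atTop 1))
    obtain ⟨N₀, hN₀⟩ := eventually_atTop.1 hev
    refine ⟨N₀, fun N hN h hh t v hv0 hv1 => ?_⟩
    obtain ⟨h1, h2, h3⟩ := hN₀ N hN
    obtain ⟨m, hm⟩ : ∃ m, m = Nat.clog 2 (2 * N) := ⟨_, rfl⟩
    rw [← hm] at h1 h2
    obtain ⟨h4, h5⟩ := clog_facts (show 1 ≤ 2 * N by omega)
    rw [← hm] at h4 h5
    have hN0 : (0 : ℝ) < N := by exact_mod_cast h3
    have hN1 : (1 : ℝ) ≤ N := by exact_mod_cast h3
    have h4' : 2 * (N : ℝ) ≤ 2 ^ m := by exact_mod_cast h4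
    have h5' : (2 : ℝ) ^ m ≤ 4 * N := by
      have : (2 : ℝ) ^ m ≤ 2 * (2 * N) := by exact_mod_cast h5
      linarith
    obtain ⟨s, hs⟩ : ∃ s : ℕ, s = 2 ^ (m / q) := ⟨_, rfl⟩
    have hs1 : 1 ≤ s := by rw [hs]; exact Nat.one_le_two_pow
    have hs0 : (0 : ℝ) < s := by exact_mod_cast hs1
    -- the size of `s`
    have hsup : (s : ℝ) ≤ 4 * (N : ℝ) ^ (1 / (q : ℝ)) := by
      have e1 : (s : ℝ) ^ q ≤ 4 * N := by
        refine le_trans ?_ h5'
        rw [hs]
        push_cast
        rw [← pow_mul]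
        exact pow_le_pow_right₀ (by norm_num) (Nat.div_mul_le_self m q)
      have e2 : (s : ℝ) = ((s : ℝ) ^ q) ^ (1 / (q : ℝ)) := by
        rw [← Real.rpow_natCast, ← Real.rpow_mul hs0.le, mul_one_div_cancel hq0.ne', Real.rpow_one]
      rw [e2]
      calc ((s : ℝ) ^ q) ^ (1 / (q : ℝ)) ≤ (4 * (N : ℝ)) ^ (1 / (q : ℝ)) :=
            Real.rpow_le_rpow (by positivity) e1 (by positivity)
        _ = (4 : ℝ) ^ (1 / (q : ℝ)) * (N : ℝ) ^ (1 / (q : ℝ)) :=
            Real.mul_rpow (by norm_num) hN0.le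
        _ ≤ 4 * (N : ℝ) ^ (1 / (q : ℝ)) := by
            apply mul_le_mul_of_nonneg_right _ (by positivity)
            calc (4 : ℝ) ^ (1 / (q : ℝ)) ≤ (4 : ℝ) ^ (1 : ℝ) := by
                  apply Real.rpow_le_rpow_of_exponent_le (by norm_num)
                  rw [div_le_one hq0]
                  exact_mod_cast hq
              _ = 4 := Real.rpow_one _
    have hslo : (N : ℝ) ^ (1 / (q : ℝ)) ≤ 2 * s := by
      have e1 : (N : ℝ) ≤ (2 * (s : ℝ)) ^ q := by
        have e3 : (2 * (s : ℝ)) ^ q = 2 ^ ((m / q + 1) * q) := by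
          rw [hs]
          push_cast
          rw [← pow_succ', ← pow_mul]
        rw [e3]
        have e4 : m ≤ (m / q + 1) * q := by
          have := Nat.lt_div_mul_add (a := m) hq
          nlinarith
        calc (N : ℝ) ≤ 2 * N := by linarith
          _ ≤ 2 ^ m := h4'
          _ ≤ 2 ^ ((m / q + 1) * q) := pow_le_pow_right₀ (by norm_num) e4
      calc (N : ℝ) ^ (1 / (q : ℝ)) ≤ ((2 * (s : ℝ)) ^ q) ^ (1 / (q : ℝ)) :=
            Real.rpow_le_rpow hN0.le e1 (by positivity)
        _ = 2 * s := by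
            rw [← Real.rpow_natCast, ← Real.rpow_mul (by positivity), mul_one_div_cancel hq0.ne',
              Real.rpow_one]
    -- the grid point
    obtain ⟨u, hu⟩ : ∃ u : ℕ, u = h / s := ⟨_, rfl⟩
    have hus : u * s ≤ h := by
      rw [hu]
      exact Nat.div_mul_le_self h s
    have hus2 : h < u * s + s := by
      have := Nat.lt_div_mul_add (a := h) hs1
      rw [hu]
      exact this
    have hr : 2 * ((h : ℝ) - ((u * s : ℕ) : ℝ)) ≤ 2 * s := by
      have : (h : ℝ) < ((u * s : ℕ) : ℝ) + s := by exact_mod_cast hus2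
      linarith
    have huG : u < 2 ^ m / 2 ^ (m / q) + 1 := by
      rw [← hs, hu]
      exact Nat.lt_succ_of_le (Nat.div_le_div_right (by omega))
    -- the size of the error
    obtain ⟨E, hE⟩ : ∃ E : ℝ, E = (N : ℝ) ^ (1 - 1 / (4 * (q : ℝ))) := ⟨_, rfl⟩
    have hE0 : 0 ≤ E := by rw [hE]; positivity
    have herr : (((2 ^ m / 2 ^ (m / q) + 1 : ℕ) : ℝ) + 1) * 2 ^ m * ((m : ℝ) + 2) ^ 13 ≤
        (E / 2) ^ 2 := by
      have hx1 : (1 : ℝ) ≤ (N : ℝ) ^ (1 - 1 / (q : ℝ)) := by
        apply Real.one_le_rpow hN1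
        rw [sub_nonneg, div_le_one hq0]
        exact_mod_cast hq
      have e1 : ((2 ^ m / 2 ^ (m / q) + 1 : ℕ) : ℝ) + 1 ≤ 10 * (N : ℝ) ^ (1 - 1 / (q : ℝ)) := by
        have e2 : ((2 ^ m / 2 ^ (m / q) : ℕ) : ℝ) ≤ 8 * (N : ℝ) ^ (1 - 1 / (q : ℝ)) := by
          calc ((2 ^ m / 2 ^ (m / q) : ℕ) : ℝ) ≤ ((2 ^ m : ℕ) : ℝ) / ((2 ^ (m / q) : ℕ) : ℝ) :=
                Nat.cast_div_le
            _ = 2 ^ m / s := by
                rw [hs]
                push_cast
                rfl
            _ ≤ 4 * N / ((N : ℝ) ^ (1 / (q : ℝ)) / 2) := by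
                apply div_le_div₀ (by positivity) h5' (by positivity)
                linarith
            _ = 8 * (N : ℝ) ^ (1 - 1 / (q : ℝ)) := by
                rw [Real.rpow_sub hN0, Real.rpow_one]
                field_simp
                ring
        push_cast at e2 ⊢
        linarith
      have e3 : 160 * ((m : ℝ) + 2) ^ 13 ≤ (N : ℝ) ^ (1 / (2 * (q : ℝ))) := by
        have e4 : (((2 * N : ℕ) : ℝ)) ^ (1 / (2 * (q : ℝ))) ≤ 2 * (N : ℝ) ^ (1 / (2 * (q : ℝ))) := by
          push_cast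
          rw [Real.mul_rpow (by norm_num) hN0.le]
          apply mul_le_mul_of_nonneg_right _ (by positivity)
          calc (2 : ℝ) ^ (1 / (2 * (q : ℝ))) ≤ (2 : ℝ) ^ (1 : ℝ) := by
                apply Real.rpow_le_rpow_of_exponent_le (by norm_num)
                rw [div_le_one (by positivity)]
                have : (1 : ℝ) ≤ q := by exact_mod_cast hq
                linarith
            _ = 2 := Real.rpow_one _
        have := h2.trans e4
        linarith
      have e5 : (E / 2) ^ 2 = (N : ℝ) ^ (1 - 1 / (q : ℝ)) * N * (N : ℝ) ^ (1 / (2 * (q : ℝ))) / 4 := by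
        rw [hE, div_pow, ← Real.rpow_natCast, ← Real.rpow_mul hN0.le]
        nth_rewrite 3 [← Real.rpow_one (N : ℝ)]
        rw [← Real.rpow_add hN0, ← Real.rpow_add hN0]
        norm_num
        congr 1
        field_simp
        ring
      rw [e5]
      calc (((2 ^ m / 2 ^ (m / q) + 1 : ℕ) : ℝ) + 1) * 2 ^ m * ((m : ℝ) + 2) ^ 13
          ≤ (10 * (N : ℝ) ^ (1 - 1 / (q : ℝ))) * (4 * N) * ((m : ℝ) + 2) ^ 13 := by
            apply mul_le_mul_of_nonneg_right _ (by positivity)
            exact mul_le_mul e1 h5' (by positivity) (by positivity)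
        _ = (N : ℝ) ^ (1 - 1 / (q : ℝ)) * N * (160 * ((m : ℝ) + 2) ^ 13) / 4 := by ring
        _ ≤ (N : ℝ) ^ (1 - 1 / (q : ℝ)) * N * (N : ℝ) ^ (1 / (2 * (q : ℝ))) / 4 := by
            apply div_le_div_of_nonneg_right _ (by norm_num)
            exact mul_le_mul_of_nonneg_left e3 (by positivity)
    -- the grid windows
    have hgrid : ∀ t' : ℝ, |((below (arcSet α v) N (u * s) t').card : ℝ) -
        v * (below Set.univ N (u * s) t').card| ≤ E := by
      intro t'
      have g1 := h1 u huG (2 * N) h4 t' v hv0 hv1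
      have g2 := h1 u huG N (by omega) t' v hv0 hv1
      rw [← hs] at g1 g2
      have w1 := below_card (arcSet α v) N (u * s) t'
        (fun k => mobSum (k + 1) (u * s) ≤ t' ∧ Int.fract (((k + 1 : ℕ) : ℝ) * α) < v)
        (fun k => by
          unfold arcSet
          exact and_comm)
      have w2 := below_card Set.univ N (u * s) t'
        (fun k => mobSum (k + 1) (u * s) ≤ t') (fun k => by simp)
      have f1 : |(((range (2 * N)).filter (fun k => mobSum (k + 1) (u * s) ≤ t' ∧
          Int.fract (((k + 1 : ℕ) : ℝ) * α) < v)).card : ℝ) -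
          v * ((range (2 * N)).filter (fun k => mobSum (k + 1) (u * s) ≤ t')).card| ≤ E / 2 :=
        abs_le_of_sq_le_sq (g1.trans (by rw [hs]; exact herr)) (by linarith)
      have f2 : |(((range N).filter (fun k => mobSum (k + 1) (u * s) ≤ t' ∧
          Int.fract (((k + 1 : ℕ) : ℝ) * α) < v)).card : ℝ) -
          v * ((range N).filter (fun k => mobSum (k + 1) (u * s) ≤ t')).card| ≤ E / 2 :=
        abs_le_of_sq_le_sq (g2.trans (by rw [hs]; exact herr)) (by linarith)
      rw [w1, w2]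
      rw [abs_le] at f1 f2 ⊢
      constructor <;> linarith [f1.1, f1.2, f2.1, f2.2]
    rw [← hE]
    have hD : 4 * (s : ℝ) ≤ 16 * (N : ℝ) ^ (1 / (q : ℝ)) := by linarith
    constructor
    · have a1 := below_mono (S := Set.univ) (N := N) (h := h)
        (show t - 16 * (N : ℝ) ^ (1 / (q : ℝ)) ≤ t - 4 * s by linarith)
      have a2 := (below_shift (S := Set.univ) (t := t - 4 * s) hh hus hr).1
      have a3 := (abs_le.1 (hgrid (t - 4 * s + 2 * s))).1
      have a4 := (below_shift (S := arcSet α v) (t := t - 4 * s + 2 * s) hh hus hr).2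
      have e : t - 4 * (s : ℝ) + 2 * s + 2 * s = t := by ring
      rw [e] at a4
      have a5 := mul_le_mul_of_nonneg_left (a1.trans a2) hv0
      linarith
    · have a1 := (below_shift (S := arcSet α v) (t := t) hh hus hr).1
      have a2 := (abs_le.1 (hgrid (t + 2 * s))).2
      have a3 := (below_shift (S := Set.univ) (t := t + 2 * s) hh hus hr).2
      have a4 := below_mono (S := Set.univ) (N := N) (h := h)
        (show t + 2 * (s : ℝ) + 2 * s ≤ t + 16 * (N : ℝ) ^ (1 / (q : ℝ)) by linarith)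
      have a5 := mul_le_mul_of_nonneg_left (a3.trans a4) hv0
      linarith
  filter_upwards [ae_all_iff.2 hae] with α hα q hq
  exact hα q hq

end Pool.Agent.H85.MR
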