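import Pool.Agent.H90.MR.StmTarg
import Pool.Agent.H90.MR.Thin

/-!
# TARG of the project MR: shrinking targets for all integers
-/

set_option autoImplicit false

namespace Pool.Agent.H85.MR

open Finset MeasureTheory Filter
open Pool.Agent.H90.MR

/-- the divisor function against a nonincreasing weight -/
theorem tau_sum (hT : S_TAU) (δ : ℕ → ℝ) (hδ : ∀ k, 0 ≤ δ k ∧ δ k ≤ 1) (hδa : Antitone δ) (m : ℕ) :
    ∑ k ∈ range (2 ^ m), ((k + 1).divisors.card : ℝ) * δ k ≤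
      2 * ((m : ℝ) + 1) ^ 2 * ∑ k ∈ range (2 ^ m), δ k := by
  induction m with
  | zero =>
    have := (hδ 0).1
    simp
    linarith
  | succ m ih =>
    have hD0 : 0 ≤ ∑ k ∈ range (2 ^ m), δ k := sum_nonneg fun k _ => (hδ k).1
    have hD1 : ∑ k ∈ range (2 ^ m), δ k ≤ ∑ k ∈ range (2 ^ (m + 1)), δ k :=
      sum_le_sum_of_subset_of_nonneg (range_mono (Nat.pow_le_pow_right (by norm_num) (by omega)))
        fun k _ _ => (hδ k).1
    have h1 : ∑ k ∈ range (2 ^ (m + 1)), ((k + 1).divisors.card : ℝ) * δ k =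
        ∑ k ∈ range (2 ^ m), ((k + 1).divisors.card : ℝ) * δ k +
          ∑ k ∈ Ico (2 ^ m) (2 ^ (m + 1)), ((k + 1).divisors.card : ℝ) * δ k :=
      (sum_range_add_sum_Ico _ (Nat.pow_le_pow_right (by norm_num) (by omega))).symm
    have h2 : ∑ k ∈ Ico (2 ^ m) (2 ^ (m + 1)), ((k + 1).divisors.card : ℝ) * δ k ≤
        (2 ^ (m + 1) * (((m + 1 : ℕ) : ℝ) + 1)) * δ (2 ^ m) := by
      calc _ ≤ ∑ k ∈ Ico (2 ^ m) (2 ^ (m + 1)), ((k + 1).divisors.card : ℝ) * δ (2 ^ m) := by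
            apply sum_le_sum
            intro k hk
            exact mul_le_mul_of_nonneg_left (hδa (mem_Ico.1 hk).1) (Nat.cast_nonneg _)
        _ = (∑ k ∈ Ico (2 ^ m) (2 ^ (m + 1)), ((k + 1).divisors.card : ℝ)) * δ (2 ^ m) := by
            rw [sum_mul]
        _ ≤ _ := by
            apply mul_le_mul_of_nonneg_right _ (hδ _).1
            refine le_trans ?_ (hT (m + 1))
            apply sum_le_sum_of_subset_of_nonneg
            · intro k hk
              exact mem_range.2 (mem_Ico.1 hk).2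
            · intro k _ _
              exact Nat.cast_nonneg _
    have h3 : (2 : ℝ) ^ m * δ (2 ^ m) ≤ ∑ k ∈ range (2 ^ m), δ k := by
      calc (2 : ℝ) ^ m * δ (2 ^ m) = ∑ _k ∈ range (2 ^ m), δ (2 ^ m) := by
            rw [sum_const, card_range, nsmul_eq_mul]
            push_cast
            rfl
        _ ≤ _ := by
            apply sum_le_sum
            intro k hk
            exact hδa (mem_range.1 hk).le
    have hm0 : (0 : ℝ) ≤ m := Nat.cast_nonneg m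
    have h4 : (2 ^ (m + 1) * (((m + 1 : ℕ) : ℝ) + 1)) * δ (2 ^ m) ≤
        2 * ((m : ℝ) + 2) * ∑ k ∈ range (2 ^ m), δ k := by
      calc (2 ^ (m + 1) * (((m + 1 : ℕ) : ℝ) + 1)) * δ (2 ^ m)
          = 2 * ((m : ℝ) + 2) * (2 ^ m * δ (2 ^ m)) := by
            push_cast
            ring
        _ ≤ _ := mul_le_mul_of_nonneg_left h3 (by positivity)
    rw [h1]
    push_cast
    calc _ ≤ 2 * ((m : ℝ) + 1) ^ 2 * ∑ k ∈ range (2 ^ m), δ k +
          2 * ((m : ℝ) + 2) * ∑ k ∈ range (2 ^ m), δ k := add_le_add ih (h2.trans h4)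
      _ = (2 * ((m : ℝ) + 1) ^ 2 + 2 * ((m : ℝ) + 2)) * ∑ k ∈ range (2 ^ m), δ k := by ring
      _ ≤ (2 * ((m : ℝ) + 1 + 1) ^ 2) * ∑ k ∈ range (2 ^ m), δ k := by
          apply mul_le_mul_of_nonneg_right _ hD0
          nlinarith
      _ ≤ (2 * ((m : ℝ) + 1 + 1) ^ 2) * ∑ k ∈ range (2 ^ (m + 1)), δ k :=
          mul_le_mul_of_nonneg_left hD1 (by positivity)

open Classical in
/-- the metric theorem at the scales `2 ^ m` -/
theorem thinG (hS : S_SUP) (hE : S_EXPG) (hT : S_TAU) (δ : ℕ → ℝ) (hδ : ∀ k, 0 ≤ δ k ∧ δ k ≤ 1)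
    (hδa : Antitone δ) (L : ℕ) (rs : ℕ → List (ℕ → ℕ)) (τ : ℕ → ℕ → List ℤ)
    (hL : ∀ m, (rs m).length = L) (hr : ∀ m, ∀ r ∈ rs m, ∀ k < 2 ^ m, r k < 2 ^ m) :
    ∀ᵐ α : ℝ, ∀ᶠ m : ℕ in atTop, ∀ rb : List ((ℕ → ℕ) × ℕ), rb.map Prod.fst = rs m →
      (∀ x ∈ rb, x.2 ≤ 2 ^ m) → ∑ c ∈ (range (2 ^ m)).image (τ m),
      ((((range (2 ^ m)).filter (fun k => (τ m k = c ∧ ∀ x ∈ rb, x.1 k < x.2) ∧
        Int.fract (((k + 1 : ℕ) : ℝ) * α) < δ k)).card : ℝ) -
        ∑ k ∈ (range (2 ^ m)).filter (fun k => τ m k = c ∧ ∀ x ∈ rb, x.1 k < x.2), δ k) ^ 2 ≤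
      (1 + ∑ k ∈ range (2 ^ m), δ k) * ((m : ℝ) + 2) ^ (2 * L + 4) := by
  obtain ⟨n, hn⟩ : ∃ n : ℕ → ℕ, n = fun k => k + 1 := ⟨_, rfl⟩
  have hδ0 : ∀ m : ℕ, 0 ≤ ∑ k ∈ range (2 ^ m), δ k := fun m => sum_nonneg fun k _ => (hδ k).1
  have h1 := bc (fun m α => QQ m (range (2 ^ m)) (fun k => g 0 (δ k) (n k) α) (rs m) (τ m))
    (fun m => (1 + ∑ k ∈ range (2 ^ m), δ k) * ((m : ℝ) + 2) ^ (L + 4))
    (fun m => 6 / ((m : ℝ) + 1) ^ 2) (fun m => by have := hδ0 m; positivity)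
    (fun m x => QQ_nonneg _ _ _ _ _)
    (fun m => QQ_measurable m (range (2 ^ m)) (fun k α => g 0 (δ k) (n k) α)
      (fun k => g_measurable _ _ _) _ _)
    (fun m => by
      obtain ⟨B, hB⟩ := QQ_bound m (range (2 ^ m)) (rs m) (τ m)
      exact ⟨B, fun α => hB _ fun k => g_bound le_rfl (hδ k).1 (hδ k).2 _ _⟩)
    (fun m x => by simp only [g_periodic])
    (fun m => by positivity) (by
      have h0 : Summable (fun m : ℕ => 1 / ((m : ℝ) + 1) ^ 2) := by
        have := (summable_nat_add_iff 1).2 (Real.summable_one_div_nat_pow.2 (by norm_num : 1 < 2))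
        simpa using this
      have := h0.mul_left 6
      refine this.congr fun m => by ring) (fun m => by
      simp only [hn]
      refine (hE (fun _ => 0) δ (fun k => ⟨le_rfl, hδ k⟩) m (range (2 ^ m)) (rs m) (τ m)).trans ?_
      rw [hL m]
      simp only [sub_zero]
      have hm : (0 : ℝ) < (m : ℝ) + 1 := by positivity
      have hd := hδ0 m
      have ht := tau_sum hT δ hδ hδa m
      rw [div_mul_eq_mul_div, le_div_iff₀ (by positivity)]
      have h2 : ((m : ℝ) + 1) ^ L * ((m : ℝ) + 1) ^ 4 ≤ ((m : ℝ) + 2) ^ (L + 4) := by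
        rw [← pow_add]
        exact pow_le_pow_left₀ hm.le (by linarith) _
      calc 3 * ((m : ℝ) + 1) ^ L * (∑ k ∈ range (2 ^ m), ((k + 1).divisors.card : ℝ) * δ k) *
            ((m : ℝ) + 1) ^ 2
          ≤ 3 * ((m : ℝ) + 1) ^ L * (2 * ((m : ℝ) + 1) ^ 2 * ∑ k ∈ range (2 ^ m), δ k) *
            ((m : ℝ) + 1) ^ 2 := by
            apply mul_le_mul_of_nonneg_right _ (by positivity)
            exact mul_le_mul_of_nonneg_left ht (by positivity)
        _ = 6 * ((∑ k ∈ range (2 ^ m), δ k) * (((m : ℝ) + 1) ^ L * ((m : ℝ) + 1) ^ 4)) := by ring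
        _ ≤ 6 * ((1 + ∑ k ∈ range (2 ^ m), δ k) * ((m : ℝ) + 2) ^ (L + 4)) := by
          gcongr
          linarith)
  filter_upwards [h1] with α hα
  filter_upwards [hα] with m hm
  intro rb hrb hb
  have hlen : rb.length = L := by
    have := congrArg List.length hrb
    rw [List.length_map, hL m] at this
    exact this
  have hrb' : ∀ x ∈ rb, (∀ k ∈ range (2 ^ m), x.1 k < 2 ^ m) ∧ x.2 ≤ 2 ^ m := by
    intro x hx
    refine ⟨fun k hk => hr m x.1 ?_ k (mem_range.1 hk), hb x hx⟩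
    rw [← hrb]
    exact List.mem_map_of_mem hx
  have h3 := hS m (range (2 ^ m)) (fun k => g 0 (δ k) (n k) α) rb (τ m) hrb'
  simp only [sum_g_zero, filter_filter] at h3
  have hd := hδ0 m
  have h4 : ((m : ℝ) + 1) ^ L * QQ m (range (2 ^ m)) (fun k => g 0 (δ k) (n k) α) (rs m) (τ m) ≤
      (1 + ∑ k ∈ range (2 ^ m), δ k) * ((m : ℝ) + 2) ^ (2 * L + 4) := by
    calc ((m : ℝ) + 1) ^ L * QQ m (range (2 ^ m)) (fun k => g 0 (δ k) (n k) α) (rs m) (τ m)
        ≤ ((m : ℝ) + 2) ^ L * ((1 + ∑ k ∈ range (2 ^ m), δ k) * ((m : ℝ) + 2) ^ (L + 4)) := by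
          apply mul_le_mul (pow_le_pow_left₀ (by positivity) (by linarith) _) hm
            (QQ_nonneg _ _ _ _ _) (by positivity)
      _ = (1 + ∑ k ∈ range (2 ^ m), δ k) * ((m : ℝ) + 2) ^ (2 * L + 4) := by
          rw [show 2 * L + 4 = L + (L + 4) by ring, pow_add]
          ring
  rw [hlen, hrb] at h3
  have h5 := h3.trans h4
  rw [hn] at h5
  exact h5

theorem targ (hS : S_SUP) (hE : S_EXPG) (hT : S_TAU) : S_TARG := by
  classical
  intro δ hδ hδa τ
  have h1 := thinG hS hE hT δ hδ hδa 1 (fun _ => [fun k => k]) (fun _ => τ) (fun m => rfl)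
    (fun m r hr' k hk => by
      rw [List.mem_singleton] at hr'
      subst hr'
      exact hk)
  have hlog : Tendsto (fun K : ℕ => Real.log K) atTop atTop :=
    Real.tendsto_log_atTop.comp tendsto_natCast_atTop_atTop
  filter_upwards [h1] with α hα
  have h2 := (tendsto_clog.eventually hα).and ((pow_log (2 * 1 + 4) 2).and
    ((eventually_ge_atTop 1).and (hlog.eventually_ge_atTop 1)))
  obtain ⟨K₀, hK₀⟩ := eventually_atTop.1 h2
  refine ⟨K₀, fun K hK A => ?_⟩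
  obtain ⟨h3, h4, h5, hl1⟩ := hK₀ K hK
  obtain ⟨h6, h7⟩ := clog_facts h5
  have h8 := h3 [((fun k => k), K)] rfl (by
    intro x hx
    rw [List.mem_singleton] at hx
    subst hx
    exact h6)
  have e1 : ∀ c, ((range (2 ^ Nat.clog 2 K)).filter
      (fun k => (τ k = c ∧ ∀ x ∈ [((fun k => k : ℕ → ℕ), K)], x.1 k < x.2) ∧
        Int.fract (((k + 1 : ℕ) : ℝ) * α) < δ k)) =
      ((range K).filter (fun k => τ k = c ∧ Int.fract (((k + 1 : ℕ) : ℝ) * α) < δ k)) := by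
    intro c
    ext k
    simp only [mem_filter, mem_range, List.mem_singleton, forall_eq]
    constructor
    · rintro ⟨_, ⟨h', h⟩, h''⟩
      exact ⟨h, h', h''⟩
    · rintro ⟨h, h', h''⟩
      exact ⟨h.trans_le h6, ⟨h', h⟩, h''⟩
  have e2 : ∀ c, ((range (2 ^ Nat.clog 2 K)).filter
      (fun k => τ k = c ∧ ∀ x ∈ [((fun k => k : ℕ → ℕ), K)], x.1 k < x.2)) =
      ((range K).filter (fun k => τ k = c)) := by
    intro c
    ext k
    simp only [mem_filter, mem_range, List.mem_singleton, forall_eq]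
    constructor
    · rintro ⟨_, h', h⟩
      exact ⟨h, h'⟩
    · rintro ⟨h, h'⟩
      exact ⟨h.trans_le h6, h', h⟩
  simp only [e1, e2] at h8
  obtain ⟨F, hF⟩ : ∃ F : List ℤ → ℝ, F = fun c =>
    ((((range K).filter (fun k => τ k = c ∧ Int.fract (((k + 1 : ℕ) : ℝ) * α) < δ k)).card : ℝ) -
      ∑ k ∈ (range K).filter (fun k => τ k = c), δ k) ^ 2 := ⟨_, rfl⟩
  have hF0 : ∀ c, 0 ≤ F c := fun c => by rw [hF]; exact sq_nonneg _
  have hFz : ∀ c ∉ (range (2 ^ Nat.clog 2 K)).image τ, F c = 0 := by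
    intro c hc'
    have e3 : ((range K).filter (fun k => τ k = c)) = ∅ := by
      apply filter_eq_empty_iff.2
      rintro k hk h
      exact hc' (mem_image.2 ⟨k, mem_range.2 ((mem_range.1 hk).trans_le h6), h⟩)
    have e4 : ((range K).filter
        (fun k => τ k = c ∧ Int.fract (((k + 1 : ℕ) : ℝ) * α) < δ k)) = ∅ := by
      apply filter_eq_empty_iff.2
      rintro k hk ⟨h, _⟩
      exact hc' (mem_image.2 ⟨k, mem_range.2 ((mem_range.1 hk).trans_le h6), h⟩)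
    rw [hF]
    simp only [e3, e4]
    simp
  have h9 : ∑ c ∈ A, F c ≤ ∑ c ∈ (range (2 ^ Nat.clog 2 K)).image τ, F c := by
    calc ∑ c ∈ A, F c ≤ ∑ c ∈ A ∪ (range (2 ^ Nat.clog 2 K)).image τ, F c :=
          sum_le_sum_of_subset_of_nonneg subset_union_left fun c _ _ => hF0 c
      _ = ∑ c ∈ (range (2 ^ Nat.clog 2 K)).image τ, F c :=
          (sum_subset subset_union_right fun c _ h => hFz c h).symm
  have h10 : ∑ k ∈ range (2 ^ Nat.clog 2 K), δ k ≤ 2 * ∑ k ∈ range K, δ k := by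
    calc ∑ k ∈ range (2 ^ Nat.clog 2 K), δ k ≤ ∑ k ∈ range (2 * K), δ k :=
          sum_le_sum_of_subset_of_nonneg (range_mono h7) fun k _ _ => (hδ k).1
      _ = ∑ k ∈ range K, δ k + ∑ k ∈ range K, δ (K + k) := by rw [two_mul, sum_range_add]
      _ ≤ ∑ k ∈ range K, δ k + ∑ k ∈ range K, δ k := by
          gcongr with k _
          exact hδa (by omega)
      _ = 2 * ∑ k ∈ range K, δ k := by ring
  have h11 : 0 ≤ ∑ k ∈ range K, δ k := sum_nonneg fun k _ => (hδ k).1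
  have h12 : ∑ c ∈ A, F c ≤ (1 + ∑ k ∈ range K, δ k) * Real.log K ^ 12 := by
    refine h9.trans ?_
    rw [hF]
    refine h8.trans ?_
    calc (1 + ∑ k ∈ range (2 ^ Nat.clog 2 K), δ k) * ((Nat.clog 2 K : ℝ) + 2) ^ (2 * 1 + 4)
        ≤ (2 * (1 + ∑ k ∈ range K, δ k)) * ((Nat.clog 2 K : ℝ) + 2) ^ (2 * 1 + 4) := by
          gcongr
          linarith
      _ = (1 + ∑ k ∈ range K, δ k) * (2 * ((Nat.clog 2 K : ℝ) + 2) ^ (2 * 1 + 4)) := by ring
      _ ≤ (1 + ∑ k ∈ range K, δ k) * Real.log K ^ (2 * 1 + 4 + 1) := by gcongr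
      _ ≤ (1 + ∑ k ∈ range K, δ k) * Real.log K ^ 12 := by
          apply mul_le_mul_of_nonneg_left _ (by linarith)
          exact pow_le_pow_right₀ hl1 (by norm_num)
  rw [hF] at h12
  convert h12

end Pool.Agent.H85.MR
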