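import Pool.Agent.H90.MR.StmReal

/-!
# VOL of the project MR: lengths and numbers of integers
-/

set_option autoImplicit false

namespace Pool.Agent.H85.MR

open Finset MeasureTheory Filter
open Pool.Agent.H90.MR

theorem vol_union (A : Finset ℕ) :
    volume.real (⋃ n ∈ A, Set.Ico (n : ℝ) ((n : ℝ) + 1)) = A.card := by
  rw [measureReal_biUnion_finset (h := fun n _ => measure_Ico_lt_top.ne)]
  · rw [sum_congr rfl (g := fun _ => (1 : ℝ)) (fun n _ => by
      rw [Real.volume_real_Ico_of_le (by linarith)]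
      ring), sum_const, nsmul_eq_mul, mul_one]
  · intro m _ n _ hmn
    rw [Function.onFun, Set.disjoint_left]
    rintro x ⟨h1, h2⟩ ⟨h3, h4⟩
    apply hmn
    have h5 : m < n + 1 := by exact_mod_cast h1.trans_lt h4
    have h6 : n < m + 1 := by exact_mod_cast h3.trans_lt h2
    omega
  · intro n _
    exact measurableSet_Ico

theorem vol : S_VOL := by
  classical
  intro T X hX
  obtain ⟨N, hN⟩ : ∃ N : ℕ, N = ⌊X⌋₊ := ⟨_, rfl⟩
  rw [← hN]
  obtain ⟨A, hA⟩ : ∃ A : Finset ℕ, A = (Ioc N (2 * N)).filter (fun n => n ∈ T) := ⟨_, rfl⟩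
  rw [← hA]
  have hX0 : 0 ≤ X := by linarith
  have hN1 : (N : ℝ) ≤ X := by
    rw [hN]
    exact Nat.floor_le hX0
  have hN2 : X < (N : ℝ) + 1 := by
    rw [hN]
    exact Nat.lt_floor_add_one X
  obtain ⟨S, hS⟩ : ∃ S : Set ℝ, S = {x : ℝ | x ∈ Set.Icc X (2 * X) ∧ ⌊x⌋₊ ∈ T} := ⟨_, rfl⟩
  rw [← hS]
  have hSfin : volume S ≠ ⊤ := by
    have h1 : S ⊆ Set.Icc X (2 * X) := by
      rw [hS]
      exact fun x hx => hx.1
    exact ((measure_mono h1).trans_lt measure_Icc_lt_top).ne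
  have hUfin : volume (⋃ n ∈ A, Set.Ico (n : ℝ) ((n : ℝ) + 1)) ≠ ⊤ := by
    have h1 : (⋃ n ∈ A, Set.Ico (n : ℝ) ((n : ℝ) + 1)) ⊆ Set.Icc 0 (2 * (N : ℝ) + 1) := by
      intro x hx
      simp only [Set.mem_iUnion] at hx
      obtain ⟨n, hn, h2, h3⟩ := hx
      rw [hA, mem_filter, mem_Ioc] at hn
      have h4 : (n : ℝ) ≤ 2 * N := by exact_mod_cast hn.1.2
      have h5 : (0 : ℝ) ≤ n := Nat.cast_nonneg n
      exact ⟨by linarith, by linarith⟩
    exact ((measure_mono h1).trans_lt measure_Icc_lt_top).ne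
  have hsub1 : S ⊆ (⋃ n ∈ A, Set.Ico (n : ℝ) ((n : ℝ) + 1)) ∪
      (Set.Ico (N : ℝ) ((N : ℝ) + 1) ∪ Set.Ico (2 * (N : ℝ) + 1) (2 * (N : ℝ) + 1 + 1)) := by
    intro x hx
    rw [hS] at hx
    obtain ⟨⟨h1, h2⟩, h3⟩ := hx
    have hx0 : 0 ≤ x := by linarith
    have h4 := Nat.floor_le hx0
    have h5 := Nat.lt_floor_add_one x
    have h6 : (N : ℝ) < (⌊x⌋₊ : ℝ) + 1 := by linarith
    have h7 : (⌊x⌋₊ : ℝ) < 2 * N + 2 := by linarith
    have h6' : N < ⌊x⌋₊ + 1 := by exact_mod_cast h6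
    have h7' : ⌊x⌋₊ < 2 * N + 2 := by exact_mod_cast h7
    rcases Nat.lt_or_ge N ⌊x⌋₊ with h8 | h8
    · rcases Nat.lt_or_ge (2 * N) ⌊x⌋₊ with h9 | h9
      · right
        right
        have h10 : ⌊x⌋₊ = 2 * N + 1 := by omega
        rw [h10] at h4 h5
        push_cast at h4 h5
        exact ⟨h4, h5⟩
      · left
        simp only [Set.mem_iUnion]
        refine ⟨⌊x⌋₊, ?_, h4, h5⟩
        rw [hA, mem_filter, mem_Ioc]
        exact ⟨⟨h8, h9⟩, h3⟩
    · right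
      left
      have h10 : ⌊x⌋₊ = N := by omega
      rw [h10] at h4 h5
      exact ⟨h4, h5⟩
  have hsub2 : (⋃ n ∈ A, Set.Ico (n : ℝ) ((n : ℝ) + 1)) ⊆
      S ∪ Set.Ico (2 * (N : ℝ)) (2 * (N : ℝ) + 1) := by
    intro x hx
    simp only [Set.mem_iUnion] at hx
    obtain ⟨n, hn, h2, h3⟩ := hx
    rw [hA, mem_filter, mem_Ioc] at hn
    obtain ⟨⟨h4, h5⟩, h6⟩ := hn
    have h4' : (N : ℝ) + 1 ≤ n := by exact_mod_cast h4
    rcases Nat.lt_or_ge n (2 * N) with h7 | h7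
    · left
      rw [hS]
      have h7' : (n : ℝ) + 1 ≤ 2 * N := by exact_mod_cast h7
      have hfl : ⌊x⌋₊ = n := by
        rw [Nat.floor_eq_iff (by linarith [(Nat.cast_nonneg n : (0 : ℝ) ≤ n)])]
        exact ⟨h2, h3⟩
      refine ⟨⟨by linarith, by linarith⟩, ?_⟩
      rw [hfl]
      exact h6
    · right
      have h8 : n = 2 * N := by omega
      rw [h8] at h2 h3
      push_cast at h2 h3
      exact ⟨h2, h3⟩
  have hI1 : volume.real (Set.Ico (N : ℝ) ((N : ℝ) + 1)) = 1 := by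
    rw [Real.volume_real_Ico_of_le (by linarith)]
    ring
  have hI2 : volume.real (Set.Ico (2 * (N : ℝ) + 1) (2 * (N : ℝ) + 1 + 1)) = 1 := by
    rw [Real.volume_real_Ico_of_le (by linarith)]
    ring
  have hI3 : volume.real (Set.Ico (2 * (N : ℝ)) (2 * (N : ℝ) + 1)) = 1 := by
    rw [Real.volume_real_Ico_of_le (by linarith)]
    ring
  have hU := vol_union A
  have b1 : volume.real S ≤ A.card + (1 + 1) := by
    have hfin : volume ((⋃ n ∈ A, Set.Ico (n : ℝ) ((n : ℝ) + 1)) ∪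
        (Set.Ico (N : ℝ) ((N : ℝ) + 1) ∪ Set.Ico (2 * (N : ℝ) + 1) (2 * (N : ℝ) + 1 + 1))) ≠ ⊤ := by
      apply ne_of_lt
      refine (measure_union_le _ _).trans_lt ?_
      refine ENNReal.add_lt_top.2 ⟨lt_top_iff_ne_top.2 hUfin, ?_⟩
      refine (measure_union_le _ _).trans_lt ?_
      exact ENNReal.add_lt_top.2 ⟨measure_Ico_lt_top, measure_Ico_lt_top⟩
    refine (measureReal_mono hsub1 hfin).trans ((measureReal_union_le _ _).trans ?_)
    rw [hU]
    apply add_le_add le_rfl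
    refine (measureReal_union_le _ _).trans ?_
    rw [hI1, hI2]
  have b2 : (A.card : ℝ) ≤ volume.real S + 1 := by
    have hfin : volume (S ∪ Set.Ico (2 * (N : ℝ)) (2 * (N : ℝ) + 1)) ≠ ⊤ := by
      apply ne_of_lt
      refine (measure_union_le _ _).trans_lt ?_
      exact ENNReal.add_lt_top.2 ⟨lt_top_iff_ne_top.2 hSfin, measure_Ico_lt_top⟩
    rw [← hU]
    refine (measureReal_mono hsub2 hfin).trans ((measureReal_union_le _ _).trans ?_)
    rw [hI3]
  have hr : (volume S).toReal = volume.real S := rfl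
  rw [hr, abs_le]
  constructor <;> linarith

end Pool.Agent.H85.MR
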